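import Pool.Agent.Lib.J4c.AsmRS
import Pool.Agent.Lib.J4c.RSFin
import Pool.Agent.Lib.MP_4c1f79_al.AsmK
import Pool.Agent.Lib.MP_4c1f79_al.NumAll

/-!
MP_4c1f79_al, Q1: for every root system and every `α` in the positive cone of the root lattice,
`(q)_α ^ 2 J_α` is a polynomial with nonnegative integer coefficients.

The definitions `rvec`, `Short`, `Nmd`, `hf`, `rd`, `rq`, `IsJ` are in `Pool/Agent/Lib/J4c/RS.lean`.
-/

set_option autoImplicit false

namespace Pool.Agent.Results.MP_4c1f79_al.NonnegNumerators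

open J4c Polynomial

/-- Let `P` be a root system over `ℚ` (finite, crystallographic, reduced) with a base `b`. There is
an invariant form for which every short root has norm `2`. For every such form `B`, the numbers
`(α, α) / 2` and `d_i = (α_i, α_i) / 2` are natural numbers, there is exactly one family `J_α` of
rational functions with `J_0 = 1` and
`J_α = ∑_{0 ≤ β ≤ α} q ^ ((β, β) / 2) / (q)_{α - β} J_β` for all `α`, and
`(q)_α ^ 2 J_α` is a polynomial with coefficients in `ℕ` for all `α`. -/
theorem result :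
    ∀ {ι M N : Type} [Finite ι] [AddCommGroup M] [Module ℚ M] [AddCommGroup N] [Module ℚ N]
      (P : RootPairing ι ℚ M N) [P.IsRootSystem] [P.IsCrystallographic] [P.IsReduced]
      (b : P.Base),
      (∃ B : P.InvariantForm, Nmd B) ∧
      ∀ B : P.InvariantForm, Nmd B →
        (∀ a, (hf b B a : ℚ) = B.form (rvec b a) (rvec b a) / 2) ∧
        (∀ i : b.support, (rd b B i : ℚ) = B.form (P.root i) (P.root i) / 2) ∧
        (∃! J, IsJ b B J) ∧
        ∀ J, IsJ b B J → ∀ a, ∃ f : ℕ[X],
          rq b B a ^ 2 * J a = algebraMap ℚ[X] (RatFunc ℚ) (f.map (Nat.castRingHom ℚ)) :=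
  rs_all Pool.Agent.Lib.MP_4c1f79_al.numPos_all Pool.Agent.Lib.MP_4c1f79_al.c_KFI
    c_rs_form c_rs_final c_rs_mat c_rs_cf c_rs_exp c_good_of_cf

end Pool.Agent.Results.MP_4c1f79_al.NonnegNumerators
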